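import Pool.Agent.H609R3.QLCPoly

/-!
# q-log-convexity of `∑ C(n,k)² C(n+k,k) q^k`: summation by parts
-/

namespace Pool.Agent.H609R3.QLC

open Finset

/-- The coefficients `a(n,k) = C(n,k)² C(n+k,k)`. -/
def a (n k : ℕ) : ℤ := ((n.choose k : ℤ)) ^ 2 * ((n + k).choose k : ℤ)

/-- The common weight `B(k) = C(n+2,k)² C(n+k,k)`. -/
def B (n k : ℕ) : ℤ := (((n + 2).choose k : ℤ)) ^ 2 * ((n + k).choose k : ℤ)

lemma choose_succ_mul (n k : ℕ) :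
    (((n + 1).choose k : ℕ) : ℤ) * ((n : ℤ) + 1 - k) = ((n : ℤ) + 1) * ((n.choose k : ℕ) : ℤ) := by
  rcases Nat.lt_or_ge (n + 1) k with h | h
  · rw [Nat.choose_eq_zero_of_lt h, Nat.choose_eq_zero_of_lt (by omega)]; simp
  · have := Nat.choose_mul_succ_eq n k
    have h2 : ((n + 1 - k : ℕ) : ℤ) = (n : ℤ) + 1 - k := by
      rw [Nat.cast_sub h]; push_cast; ring
    rw [← h2]
    have h3 : ((n.choose k * (n + 1) : ℕ) : ℤ) = (((n + 1).choose k * (n + 1 - k) : ℕ) : ℤ) := by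
      rw [this]
    push_cast at h3
    linarith [h3]

lemma choose_succ_right_mul (n k : ℕ) :
    ((n.choose (k + 1) : ℕ) : ℤ) * ((k : ℤ) + 1) = ((n.choose k : ℕ) : ℤ) * ((n : ℤ) - k) := by
  rcases Nat.lt_or_ge n k with h | h
  · rw [Nat.choose_eq_zero_of_lt h, Nat.choose_eq_zero_of_lt (by omega)]; simp
  · have := Nat.choose_succ_right_eq n k
    have h2 : ((n - k : ℕ) : ℤ) = (n : ℤ) - k := Nat.cast_sub h
    rw [← h2]
    exact_mod_cast this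

/-- `C(n+1+k,k) (n+1) = C(n+k,k) (n+1+k)`. -/
lemma choose_add_succ (n k : ℕ) :
    (((n + 1 + k).choose k : ℕ) : ℤ) * ((n : ℤ) + 1) =
      (((n + k).choose k : ℕ) : ℤ) * ((n : ℤ) + 1 + k) := by
  have h := choose_succ_mul (n + k) k
  have e : n + k + 1 = n + 1 + k := by ring
  rw [e] at h
  push_cast at h
  have e2 : ((n : ℤ) + k + 1 - k) = (n : ℤ) + 1 := by ring
  rw [e2] at h
  rw [h]; ring

/-- `C(n+k+1,k+1) (k+1) = C(n+k,k) (n+k+1)`. -/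
lemma choose_add_succ' (n k : ℕ) :
    (((n + (k + 1)).choose (k + 1) : ℕ) : ℤ) * ((k : ℤ) + 1) =
      (((n + k).choose k : ℕ) : ℤ) * ((n : ℤ) + 1 + k) := by
  have h := Nat.add_one_mul_choose_eq (n + k) k
  have h3 : (((n + k + 1) * (n + k).choose k : ℕ) : ℤ) =
      (((n + k + 1).choose (k + 1) * (k + 1) : ℕ) : ℤ) := by rw [h]
  push_cast at h3
  have e : n + (k + 1) = n + k + 1 := by ring
  rw [e]
  linarith [h3]

lemma a0 (n k : ℕ) : a n k * (((n:ℤ) + 1)^2 * ((n:ℤ) + 2)^2) =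
    B n k * (((n:ℤ) + 2 - k)^2 * ((n:ℤ) + 1 - k)^2) := by
  unfold a B
  have h1 := choose_succ_mul n k
  have h2 := choose_succ_mul (n + 1) k
  push_cast at h2
  have e : ((n:ℤ) + 1 + 1) = n + 2 := by ring
  rw [e] at h2
  have h3 : (((n + 2).choose k : ℕ) : ℤ) * (((n:ℤ) + 2 - k) * ((n:ℤ) + 1 - k)) =
      ((n:ℤ) + 2) * ((n:ℤ) + 1) * ((n.choose k : ℕ) : ℤ) := by
    calc _ = ((((n + 1 + 1).choose k : ℕ) : ℤ) * ((n:ℤ) + 2 - k)) * ((n:ℤ) + 1 - k) := by ring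
      _ = ((n:ℤ) + 2) * ((((n + 1).choose k : ℕ) : ℤ) * ((n:ℤ) + 1 - k)) := by rw [h2]; ring
      _ = _ := by rw [h1]; ring
  calc _ = (((n:ℤ) + 2) * ((n:ℤ) + 1) * ((n.choose k : ℕ) : ℤ))^2 * ((n + k).choose k : ℤ) := by
          ring
    _ = _ := by rw [← h3]; ring

lemma a1 (n k : ℕ) : a (n + 1) k * (((n:ℤ) + 1) * ((n:ℤ) + 2)^2) =
    B n k * (((n:ℤ) + 1 + k) * ((n:ℤ) + 2 - k)^2) := by
  unfold a B
  have h2 := choose_succ_mul (n + 1) k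
  push_cast at h2
  have e : ((n:ℤ) + 1 + 1) = n + 2 := by ring
  rw [e] at h2
  have h4 := choose_add_succ n k
  calc _ = (((n:ℤ) + 2) * (((n + 1).choose k : ℕ) : ℤ))^2 *
        ((((n + 1 + k).choose k : ℕ) : ℤ) * ((n:ℤ) + 1)) := by ring
    _ = _ := by rw [← h2, h4]; ring

lemma a2 (n k : ℕ) : a (n + 2) k * (((n:ℤ) + 1) * ((n:ℤ) + 2)) =
    B n k * (((n:ℤ) + 1 + k) * ((n:ℤ) + 2 + k)) := by
  unfold a B
  have h4 := choose_add_succ n k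
  have h5 := choose_add_succ (n + 1) k
  push_cast at h5
  have e : ((n:ℤ) + 1 + 1) = n + 2 := by ring
  rw [e] at h5
  have e' : n + 1 + 1 + k = n + 2 + k := by ring
  rw [e'] at h5
  calc _ = (((n + 2).choose k : ℤ)) ^ 2 * ((n:ℤ) + 1) *
        ((((n + 2 + k).choose k : ℕ) : ℤ) * ((n:ℤ) + 2)) := by ring
    _ = (((n + 2).choose k : ℤ)) ^ 2 * ((((n + 1 + k).choose k : ℕ) : ℤ) * ((n:ℤ) + 1)) *
        ((n:ℤ) + 2 + k) := by rw [h5]; ring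
    _ = _ := by rw [h4]; ring

lemma B_succ (n k : ℕ) : B n (k + 1) * ((k:ℤ) + 1)^3 =
    B n k * (((n:ℤ) + 1 + k) * ((n:ℤ) + 2 - k)^2) := by
  unfold B
  have h1 := choose_succ_right_mul (n + 2) k
  have h2 := choose_add_succ' n k
  push_cast at h1
  calc _ = ((((n + 2).choose (k + 1) : ℕ) : ℤ) * ((k:ℤ) + 1))^2 *
        ((((n + (k + 1)).choose (k + 1) : ℕ) : ℤ) * ((k:ℤ) + 1)) := by ring
    _ = _ := by rw [h1, h2]; ring

lemma B_nonneg (n k : ℕ) : 0 ≤ B n k := by unfold B; positivity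

lemma B_zero (n k : ℕ) (h : n + 2 < k) : B n k = 0 := by
  unfold B; rw [Nat.choose_eq_zero_of_lt h]; simp

/-- The odd cubic polynomial used in the summation by parts. -/
def Phi (N t y : ℤ) : ℤ :=
  -(t^2 * (12 * N * (N + 1) - 2 * (2 * N + 1) * t - t^2) + 2 * (N * (4 * N + t))) * y
    + 2 * (N * (4 * N + t)) * y^3

/-- Telescoping function. -/
def G (n t k : ℕ) : ℤ :=
  (k:ℤ)^3 * ((t + 1 - k : ℕ) : ℤ)^3 * B n k * B n (t + 1 - k) *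
    Phi ((n:ℤ) + 1) t (2 * k - 1 - t)

lemma tele (n t k : ℕ) (hk : k ≤ t) :
    B n k * B n (t - k) *
      ((((n:ℤ) + 1 + k) * ((n:ℤ) + 2 - k)^2 * ((t - k : ℕ) : ℤ)^3) *
          Phi ((n:ℤ) + 1) t ((k:ℤ) - ((t - k : ℕ) : ℤ) + 1)
        - ((k:ℤ)^3 * ((n:ℤ) + 1 + ((t - k : ℕ) : ℤ)) * ((n:ℤ) + 2 - ((t - k : ℕ) : ℤ))^2) *
          Phi ((n:ℤ) + 1) t ((k:ℤ) - ((t - k : ℕ) : ℤ) - 1))
      = G n t (k + 1) - G n t k := by
  obtain ⟨l, rfl⟩ := Nat.exists_eq_add_of_le hk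
  have e1 : k + l - k = l := by omega
  have e2 : k + l + 1 - (k + 1) = l := by omega
  have e3 : k + l + 1 - k = l + 1 := by omega
  unfold G
  rw [e1, e2, e3]
  have h1 := B_succ n k
  have h2 := B_succ n l
  push_cast
  have f1 : (2 * ((k:ℤ) + 1) - 1 - (k + l)) = (k:ℤ) - l + 1 := by ring
  have f2 : (2 * (k:ℤ) - 1 - (k + l)) = (k:ℤ) - l - 1 := by ring
  rw [f1, f2]
  set P1 := Phi ((n:ℤ) + 1) ((k:ℤ) + l) ((k:ℤ) - l + 1)
  set P2 := Phi ((n:ℤ) + 1) ((k:ℤ) + l) ((k:ℤ) - l - 1)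
  calc _ = (B n k * (((n:ℤ) + 1 + k) * ((n:ℤ) + 2 - k)^2)) * B n l * (l:ℤ)^3 * P1
        - (B n l * (((n:ℤ) + 1 + l) * ((n:ℤ) + 2 - l)^2)) * B n k * (k:ℤ)^3 * P2 := by ring
    _ = _ := by rw [← h1, ← h2]; ring

/-- The term-by-term identity. -/
lemma term_eq (n k l : ℕ) :
    (((k:ℤ) + l)^4 * (((n:ℤ) + 1)^3 * ((n:ℤ) + 2)^4)) *
      (a (n + 2) k * a n l + a (n + 2) l * a n k - 2 * (a (n + 1) k * a (n + 1) l)) =
    B n k * B n l * Q k l ((n:ℤ) + 1) +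
    B n k * B n l *
      ((((n:ℤ) + 1 + k) * ((n:ℤ) + 2 - k)^2 * (l : ℤ)^3) *
          Phi ((n:ℤ) + 1) ((k:ℤ) + l) ((k:ℤ) - l + 1)
        - ((k:ℤ)^3 * ((n:ℤ) + 1 + l) * ((n:ℤ) + 2 - l)^2) *
          Phi ((n:ℤ) + 1) ((k:ℤ) + l) ((k:ℤ) - l - 1)) := by
  have k0 := a0 n k
  have k1 := a1 n k
  have k2 := a2 n k
  have l0 := a0 n l
  have l1 := a1 n l
  have l2 := a2 n l
  have s1 : (((n:ℤ) + 1)^3 * ((n:ℤ) + 2)^4) * (a (n + 2) k * a n l) =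
      ((n:ℤ) + 2) * (B n k * (((n:ℤ) + 1 + k) * ((n:ℤ) + 2 + k))) *
        (B n l * (((n:ℤ) + 2 - l)^2 * ((n:ℤ) + 1 - l)^2)) := by
    rw [← k2, ← l0]; ring
  have s2 : (((n:ℤ) + 1)^3 * ((n:ℤ) + 2)^4) * (a (n + 2) l * a n k) =
      ((n:ℤ) + 2) * (B n l * (((n:ℤ) + 1 + l) * ((n:ℤ) + 2 + l))) *
        (B n k * (((n:ℤ) + 2 - k)^2 * ((n:ℤ) + 1 - k)^2)) := by
    rw [← l2, ← k0]; ring
  have s3 : (((n:ℤ) + 1)^3 * ((n:ℤ) + 2)^4) * (a (n + 1) k * a (n + 1) l) =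
      ((n:ℤ) + 1) * (B n k * (((n:ℤ) + 1 + k) * ((n:ℤ) + 2 - k)^2)) *
        (B n l * (((n:ℤ) + 1 + l) * ((n:ℤ) + 2 - l)^2)) := by
    rw [← k1, ← l1]; ring
  calc _ = ((k:ℤ) + l)^4 * ((((n:ℤ) + 1)^3 * ((n:ℤ) + 2)^4) * (a (n + 2) k * a n l)
        + (((n:ℤ) + 1)^3 * ((n:ℤ) + 2)^4) * (a (n + 2) l * a n k)
        - 2 * ((((n:ℤ) + 1)^3 * ((n:ℤ) + 2)^4) * (a (n + 1) k * a (n + 1) l))) := by ring
    _ = _ := by
      rw [s1, s2, s3]
      unfold Q Phi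
      ring

/-- The symmetrised sum is nonnegative. -/
lemma sum_nonneg (n t : ℕ) (ht : 1 ≤ t) :
    0 ≤ ∑ k ∈ range (t + 1), (a (n + 2) k * a n (t - k) + a (n + 2) (t - k) * a n k
      - 2 * (a (n + 1) k * a (n + 1) (t - k))) := by
  have hc : (0:ℤ) < (t:ℤ)^4 * (((n:ℤ) + 1)^3 * ((n:ℤ) + 2)^4) := by positivity
  refine nonneg_of_mul_nonneg_right ?_ hc
  rw [Finset.mul_sum]
  have hterm : ∀ k ∈ range (t + 1), (t:ℤ)^4 * (((n:ℤ) + 1)^3 * ((n:ℤ) + 2)^4) *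
      (a (n + 2) k * a n (t - k) + a (n + 2) (t - k) * a n k
        - 2 * (a (n + 1) k * a (n + 1) (t - k))) =
      B n k * B n (t - k) * Q k ((t - k : ℕ) : ℤ) ((n:ℤ) + 1) + (G n t (k + 1) - G n t k) := by
    intro k hk
    have hk' : k ≤ t := by simpa [Nat.lt_succ_iff] using hk
    rw [← tele n t k hk']
    have h := term_eq n k (t - k)
    have e : (k:ℤ) + ((t - k : ℕ) : ℤ) = (t:ℤ) := by
      rw [Nat.cast_sub hk']; ring
    rw [e] at h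
    exact h
  rw [Finset.sum_congr rfl hterm, Finset.sum_add_distrib, Finset.sum_range_sub]
  have hG0 : G n t 0 = 0 := by unfold G; simp
  have hG1 : G n t (t + 1) = 0 := by unfold G; simp
  rw [hG0, hG1]
  have : 0 ≤ ∑ k ∈ range (t + 1), B n k * B n (t - k) * Q k ((t - k : ℕ) : ℤ) ((n:ℤ) + 1) := by
    apply Finset.sum_nonneg
    intro k _
    rcases Nat.lt_or_ge (n + 2) k with h | h
    · rw [B_zero n k h]; simp
    · rcases Nat.lt_or_ge (n + 2) (t - k) with h' | h'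
      · rw [B_zero n (t - k) h']; simp
      · have hq := Q_nonneg k (t - k) (n + 1) h h'
        push_cast at hq
        exact mul_nonneg (mul_nonneg (B_nonneg _ _) (B_nonneg _ _)) hq
  linarith

/-- Nonnegativity of the convolution difference. -/
theorem conv_nonneg (n t : ℕ) :
    0 ≤ ∑ x ∈ antidiagonal t, (a (n + 2) x.1 * a n x.2 - a (n + 1) x.1 * a (n + 1) x.2) := by
  rcases Nat.eq_zero_or_pos t with rfl | ht
  · simp [a]
  · have h := sum_nonneg n t ht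
    have hsymm : ∑ k ∈ range (t + 1), a (n + 2) (t - k) * a n k =
        ∑ k ∈ range (t + 1), a (n + 2) k * a n (t - k) := by
      rw [← Finset.sum_range_reflect]
      refine Finset.sum_congr rfl (fun k hk => ?_)
      have hk' : k ≤ t := by simpa [Nat.lt_succ_iff] using hk
      have e1 : t + 1 - 1 - k = t - k := by omega
      have e2 : t - (t - k) = k := by omega
      rw [e1, e2]
    rw [Finset.Nat.sum_antidiagonal_eq_sum_range_succ_mk]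
    rw [Finset.sum_sub_distrib, Finset.sum_add_distrib, hsymm, ← Finset.mul_sum] at h
    rw [Finset.sum_sub_distrib]
    linarith

end Pool.Agent.H609R3.QLC
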