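import Mathlib

/-!
# The certificate polynomial for the q-log-convexity of `∑ C(n,k)² C(n+k,k) q^k`
-/

namespace Pool.Agent.H609R3.QLC

/-- The certificate polynomial. -/
def Q (k l N : ℤ) : ℤ :=
  (k + l)^4 * ((N + 1) * (N - k)^2 * (N + 1 + l) * (N + l) * (N + 1 - k)^2
    + (N + 1) * (N - l)^2 * (N + 1 + k) * (N + k) * (N + 1 - l)^2
    - 2 * N * (N + k) * (N + l) * (N + 1 - k)^2 * (N + 1 - l)^2)
  + ((k + l)^2 * (12 * N * (N + 1) - 2 * (2 * N + 1) * (k + l) - (k + l)^2)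
      + 2 * (N * (4 * N + (k + l))))
    * ((N + k) * (N + 1 - k)^2 * l^3 * (k - l + 1) - k^3 * (N + l) * (N + 1 - l)^2 * (k - l - 1))
  - 2 * (N * (4 * N + (k + l)))
    * ((N + k) * (N + 1 - k)^2 * l^3 * (k - l + 1)^3
      - k^3 * (N + l) * (N + 1 - l)^2 * (k - l - 1)^3)

lemma Q_symm (k l N : ℤ) : Q k l N = Q l k N := by
  unfold Q; ring

lemma Q_diag (l N : ℤ) : Q l l N = 0 := by
  unfold Q; ring

lemma Q_one (l r : ℕ) : 0 ≤ Q ((l:ℤ) + 1) l ((l:ℤ) + 1 + r) := by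
  have h : Q ((l:ℤ) + 1) l ((l:ℤ) + 1 + r) = (
    32 + 120*r + 176*r^2 + 126*r^3 + 44*r^4 + 6*r^5 + 296*l + 1068*l*r + 1496*l*r^2 + 1014*l*r^3
     + 332*l*r^4 + 42*l*r^5 + 1080*l^2 + 3688*l^2*r + 4820*l^2*r^2 + 2992*l^2*r^3 + 876*l^2*r^4
     + 96*l^2*r^5 + 1852*l^3 + 5718*l^3*r + 6460*l^3*r^2 + 3198*l^3*r^3 + 628*l^3*r^4
     + 24*l^3*r^5 + 1492*l^4 + 3972*l^4*r + 3556*l^4*r^2 + 1164*l^4*r^3 + 88*l^4*r^4 + 456*l^5
     + 992*l^5*r + 616*l^5*r^2 + 80*l^5*r^3 : ℕ) := by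
    unfold Q; push_cast; ring
  rw [h]; exact Int.natCast_nonneg _

def h0_0 (y : ℕ) : ℕ := (((((((((((7) * y + 141) * y + 1261) * y + 6587) * y + 22236) * y + 50680) * y + 79184) * y + 84672) * y + 61504) * y + 30592) * y + 10752) * y + 2304
def h0_1 (y : ℕ) : ℕ := ((((((((((31) * y + 546) * y + 4204) * y + 18534) * y + 51453) * y + 93220) * y + 110892) * y + 86208) * y + 44848) * y + 17216) * y + 4416
def h0_2 (y : ℕ) : ℕ := (((((((((56) * y + 853) * y + 5586) * y + 20512) * y + 46229) * y + 66082) * y + 60776) * y + 37392) * y + 16784) * y + 4768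
def h0_3 (y : ℕ) : ℕ := ((((((((52) * y + 677) * y + 3728) * y + 11303) * y + 20686) * y + 23912) * y + 18288) * y + 9648) * y + 2912
def h0_4 (y : ℕ) : ℕ := (((((((25) * y + 274) * y + 1251) * y + 3102) * y + 4616) * y + 4368) * y + 2672) * y + 864
def h0_5 (y : ℕ) : ℕ := ((((((5) * y + 45) * y + 166) * y + 328) * y + 384) * y + 272) * y + 96
def h1_0 (y : ℕ) : ℕ := ((((((((((45) * y + 807) * y + 6317) * y + 28305) * y + 80082) * y + 149348) * y + 187944) * y + 164784) * y + 107360) * y + 53184) * y + 14976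
def h1_1 (y : ℕ) : ℕ := (((((((((167) * y + 2552) * y + 16703) * y + 61230) * y + 138780) * y + 205944) * y + 214864) * y + 174496) * y + 109120) * y + 36480
def h1_2 (y : ℕ) : ℕ := ((((((((250) * y + 3237) * y + 17754) * y + 54431) * y + 105712) * y + 144376) * y + 149952) * y + 110192) * y + 40064
def h1_3 (y : ℕ) : ℕ := (((((((191) * y + 2109) * y + 9962) * y + 27202) * y + 49664) * y + 64288) * y + 54048) * y + 21280
def h1_4 (y : ℕ) : ℕ := ((((((75) * y + 719) * y + 3032) * y + 7592) * y + 12304) * y + 12016) * y + 5248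
def h1_5 (y : ℕ) : ℕ := (((((12) * y + 102) * y + 384) * y + 816) * y + 960) * y + 480
def h2_0 (y : ℕ) : ℕ := (((((((((113) * y + 1771) * y + 11845) * y + 44217) * y + 101870) * y + 154376) * y + 167872) * y + 146640) * y + 98784) * y + 34560
def h2_1 (y : ℕ) : ℕ := ((((((((339) * y + 4367) * y + 23605) * y + 71205) * y + 139900) * y + 209768) * y + 259344) * y + 223440) * y + 89280
def h2_2 (y : ℕ) : ℕ := (((((((413) * y + 4521) * y + 21702) * y + 64446) * y + 140048) * y + 222240) * y + 217504) * y + 93280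
def h2_3 (y : ℕ) : ℕ := ((((((265) * y + 2713) * y + 13284) * y + 41244) * y + 82136) * y + 92544) * y + 43808
def h2_4 (y : ℕ) : ℕ := (((((90) * y + 942) * y + 4584) * y + 12192) * y + 16704) * y + 9120
def h2_5 (y : ℕ) : ℕ := ((((12) * y + 132) * y + 552) * y + 1008) * y + 672
def h3_0 (y : ℕ) : ℕ := ((((((((139) * y + 1857) * y + 10255) * y + 30637) * y + 56312) * y + 74984) * y + 86992) * y + 78544) * y + 34176
def h3_1 (y : ℕ) : ℕ := (((((((317) * y + 3283) * y + 14190) * y + 37694) * y + 82832) * y + 152640) * y + 175904) * y + 85344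
def h3_2 (y : ℕ) : ℕ := ((((((309) * y + 2985) * y + 14852) * y + 51916) * y + 119960) * y + 152640) * y + 78880
def h3_3 (y : ℕ) : ℕ := (((((168) * y + 1918) * y + 10816) * y + 32904) * y + 49760) * y + 29120
def h3_4 (y : ℕ) : ℕ := ((((40) * y + 556) * y + 2728) * y + 5520) * y + 3936
def h3_5 (y : ℕ) : ℕ := ((24) * y + 96) * y + 96
def h4_0 (y : ℕ) : ℕ := (((((((84) * y + 924) * y + 4002) * y + 9098) * y + 14196) * y + 21672) * y + 27088) * y + 15168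
def h4_1 (y : ℕ) : ℕ := ((((((130) * y + 986) * y + 3492) * y + 11856) * y + 35432) * y + 57280) * y + 35040
def h4_2 (y : ℕ) : ℕ := (((((106) * y + 1114) * y + 6988) * y + 24752) * y + 42320) * y + 27104
def h4_3 (y : ℕ) : ℕ := ((((44) * y + 728) * y + 4056) * y + 8896) * y + 6688
def h4_4 (y : ℕ) : ℕ := ((88) * y + 352) * y + 352
def h5_0 (y : ℕ) : ℕ := ((((((20) * y + 172) * y + 536) * y + 904) * y + 1712) * y + 3232) * y + 2496
def h5_1 (y : ℕ) : ℕ := (((((16) * y + 64) * y + 352) * y + 2448) * y + 6336) * y + 5184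
def h5_2 (y : ℕ) : ℕ := ((((16) * y + 248) * y + 1584) * y + 3872) * y + 3136
def h5_3 (y : ℕ) : ℕ := ((80) * y + 320) * y + 320

def g0 (y r : ℕ) : ℕ := h0_0 y + h0_1 y * r + h0_2 y * r^2 + h0_3 y * r^3 + h0_4 y * r^4 + h0_5 y * r^5
def g1 (y r : ℕ) : ℕ := h1_0 y + h1_1 y * r + h1_2 y * r^2 + h1_3 y * r^3 + h1_4 y * r^4 + h1_5 y * r^5
def g2 (y r : ℕ) : ℕ := h2_0 y + h2_1 y * r + h2_2 y * r^2 + h2_3 y * r^3 + h2_4 y * r^4 + h2_5 y * r^5
def g3 (y r : ℕ) : ℕ := h3_0 y + h3_1 y * r + h3_2 y * r^2 + h3_3 y * r^3 + h3_4 y * r^4 + h3_5 y * r^5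
def g4 (y r : ℕ) : ℕ := h4_0 y + h4_1 y * r + h4_2 y * r^2 + h4_3 y * r^3 + h4_4 y * r^4
def g5 (y r : ℕ) : ℕ := h5_0 y + h5_1 y * r + h5_2 y * r^2 + h5_3 y * r^3

lemma Q_two_eq (l y r : ℕ) : Q ((l:ℤ) + y + 2) l ((l:ℤ) + y + 2 + r) =
    ((g0 y r + g1 y r * l + g2 y r * l^2 + g3 y r * l^3 + g4 y r * l^4 + g5 y r * l^5 : ℕ) : ℤ) := by
  simp only [g0, g1, g2, g3, g4, g5]
  simp only [h0_0, h0_1, h0_2, h0_3, h0_4, h0_5, h1_0, h1_1, h1_2, h1_3, h1_4, h1_5, h2_0, h2_1, h2_2, h2_3, h2_4, h2_5, h3_0, h3_1, h3_2, h3_3, h3_4, h3_5, h4_0, h4_1, h4_2, h4_3, h4_4, h5_0, h5_1, h5_2, h5_3]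
  unfold Q
  push_cast
  ring

lemma Q_two (l y r : ℕ) : 0 ≤ Q ((l:ℤ) + y + 2) l ((l:ℤ) + y + 2 + r) := by
  rw [Q_two_eq]; exact Int.natCast_nonneg _

/-- The remaining factor in the boundary case `k = N + 1`. -/
def R (l m : ℤ) : ℤ :=
  2 * (2 * l + m + 1)^4 * (2 * (l + m) + 1) * m
  + (l + m + 1) * (2 * l + m) * (2 * ((l + m) * (4 * (l + m) + (2 * l + m + 1))) * m^2
     - 2 * ((l + m) * (4 * (l + m) + (2 * l + m + 1)))
     - (2 * l + m + 1)^2 * (12 * (l + m) * (l + m + 1) - 2 * (2 * (l + m) + 1) * (2 * l + m + 1)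
        - (2 * l + m + 1)^2))

lemma R_zero (l : ℕ) : 0 ≤ R l 0 := by
  have h : R (l:ℤ) 0 = (
    6*l + 26*l^2 + 20*l^3 : ℕ) := by
    unfold R; push_cast; ring
  rw [h]; exact Int.natCast_nonneg _

lemma R_succ (l m : ℕ) : 0 ≤ R l ((m:ℤ) + 1) := by
  have h : R (l:ℤ) ((m:ℤ) + 1) = (
    32 + 96*m + 152*m^2 + 172*m^3 + 124*m^4 + 47*m^5 + 7*m^6 + 96*l + 240*l*m + 356*l*m^2
     + 344*l*m^3 + 169*l*m^4 + 31*l*m^5 + 96*l^2 + 192*l^2*m + 260*l^2*m^2 + 182*l^2*m^3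
     + 44*l^2*m^4 + 32*l^3 + 48*l^3*m + 56*l^3*m^2 + 20*l^3*m^3 : ℕ) := by
    unfold R; push_cast; ring
  rw [h]; exact Int.natCast_nonneg _

lemma Q_boundary_eq (l m : ℤ) :
    Q (l + m + 1) l (l + m) = (l + m + 1)^2 * (m + 1)^2 * m * R l m := by
  unfold Q R; ring

lemma Q_nonneg_of_le (k l N : ℕ) (hkN : k ≤ N + 1) (hlk : l ≤ k) : 0 ≤ Q (k:ℤ) l N := by
  obtain ⟨y, rfl⟩ := Nat.exists_eq_add_of_le hlk
  rcases Nat.lt_or_ge N (l + y) with h | h
  · -- boundary case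
    have hN : l + y = N + 1 := by omega
    rcases Nat.eq_zero_or_pos y with hy | hy
    · subst hy
      have : ((l + 0 : ℕ) : ℤ) = (l:ℤ) := by push_cast; ring
      rw [this, Q_diag]
    · obtain ⟨m, rfl⟩ : ∃ m, y = m + 1 := ⟨y - 1, by omega⟩
      have hN' : N = l + m := by omega
      subst hN'
      have h1 : ((l + (m + 1) : ℕ) : ℤ) = (l:ℤ) + m + 1 := by push_cast; ring
      have h2 : ((l + m : ℕ) : ℤ) = (l:ℤ) + m := by push_cast; ring
      rw [h1, h2, Q_boundary_eq]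
      have hR : 0 ≤ R (l:ℤ) (m:ℤ) := by
        rcases m with _ | m
        · simpa using R_zero l
        · have := R_succ l m
          push_cast
          exact this
      positivity
  · obtain ⟨r, rfl⟩ := Nat.exists_eq_add_of_le h
    rcases y with _ | _ | y
    · have : ((l + 0 : ℕ) : ℤ) = (l:ℤ) := by push_cast; ring
      rw [this, Q_diag]
    · have := Q_one l r
      push_cast
      simpa using this
    · have := Q_two l y r
      push_cast
      have e1 : (l:ℤ) + (y + 1 + 1) = (l:ℤ) + y + 2 := by ring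
      rw [e1]
      exact this

lemma Q_nonneg (k l N : ℕ) (hk : k ≤ N + 1) (hl : l ≤ N + 1) : 0 ≤ Q (k:ℤ) l N := by
  rcases Nat.le_total l k with h | h
  · exact Q_nonneg_of_le k l N hk h
  · rw [Q_symm]
    exact Q_nonneg_of_le l k N hl h

end Pool.Agent.H609R3.QLC
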