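import Pool.Agent.H609R3.ToricMC

/-! # The two-element fibre -/

namespace Pool.Agent.H609R3

open Finset

section fibre

variable {S : ℕ} (hS : 6 ≤ S)

/-- The vector supported on the eight words with given multiplicities. -/
noncomputable def lift (T : ℕ) (x : Fin 8 → ℕ) : Word S T → ℕ :=
  fun ω => ∑ i, if ew hS T i = ω then x i else 0

lemma lift_ew {T : ℕ} (hT : 4 ≤ T) (x : Fin 8 → ℕ) (i : Fin 8) :
    lift hS T x (ew hS T i) = x i := by
  unfold lift
  rw [Finset.sum_eq_single i]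
  · simp
  · intro j _ hj
    rw [if_neg]
    intro h
    exact hj (ew_inj hS hT h)
  · simp

lemma lift_other {T : ℕ} (x : Fin 8 → ℕ) (ω : Word S T) (h : ∀ i, ω ≠ ew hS T i) :
    lift hS T x ω = 0 := by
  unfold lift
  apply Finset.sum_eq_zero
  intro i _
  rw [if_neg (fun h' => h i h'.symm)]

lemma sum_lift {T : ℕ} (hT : 4 ≤ T) (x : Fin 8 → ℕ) (F : Word S T → ℕ) :
    ∑ ω, lift hS T x ω * F ω = ∑ i, x i * F (ew hS T i) := by
  symm
  apply Fintype.sum_of_injective (ew hS T) (ew_inj hS hT)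
  · intro ω hω
    rw [lift_other, zero_mul]
    intro i h
    exact hω ⟨i, h.symm⟩
  · intro i
    rw [lift_ew hS hT]

lemma sum_lift' {T : ℕ} (hT : 4 ≤ T) (x : Fin 8 → ℕ) :
    ∑ ω, lift hS T x ω = ∑ i, x i := by
  have := sum_lift hS hT x (fun _ => 1)
  simpa using this

/-- multiplicities of the first element -/
def U (K : ℕ) : Fin 8 → ℕ := ![K + 1, 0, 0, K + 2, 2 * K + 3, 0, 0, 2 * K + 3]

/-- multiplicities of the second element -/
def V (K : ℕ) : Fin 8 → ℕ := ![0, K + 2, K + 1, 0, 0, 2 * K + 3, 2 * K + 3, 0]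

/-- The seven transitions, numbered. -/
lemma N_table :
    (∀ i : Fin 8, N i 3 0 4 = ![0, 0, 0, 0, 0, 0, 1, 1] i) ∧
    (∀ i : Fin 8, N i 3 4 2 = ![0, 0, 0, 0, 1, 0, 1, 0] i) ∧
    (∀ i : Fin 8, N i 3 4 5 = ![0, 0, 0, 0, 0, 1, 0, 1] i) ∧
    (∀ i : Fin 8, N i 3 2 3 = ![2, 1, 0, 0, 1, 0, 1, 0] i) ∧
    (∀ i : Fin 8, N i 3 3 2 = ![1, 2, 0, 0, 1, 0, 0, 0] i) ∧
    (∀ i : Fin 8, N i 3 5 1 = ![0, 0, 2, 1, 0, 1, 0, 1] i) ∧
    (∀ i : Fin 8, N i 3 1 5 = ![0, 0, 1, 2, 0, 1, 0, 0] i) := by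
  decide

lemma dl_table :
    (∀ i : Fin 8, dl i 0 4 = 0) ∧
    (∀ i : Fin 8, dl i 4 2 = 0) ∧
    (∀ i : Fin 8, dl i 4 5 = 0) ∧
    (∀ i : Fin 8, dl i 2 3 = ![1, 1, 0, 0, 1, 0, 1, 0] i) ∧
    (∀ i : Fin 8, dl i 3 2 = ![1, 1, 0, 0, 1, 0, 1, 0] i) ∧
    (∀ i : Fin 8, dl i 5 1 = ![0, 0, 1, 1, 0, 1, 0, 1] i) ∧
    (∀ i : Fin 8, dl i 1 5 = ![0, 0, 1, 1, 0, 1, 0, 1] i) := by
  decide

lemma lin_solve (k a b : ℕ) (hk : 1 ≤ k) (h : (k + 1) * a + k * b = k * (k + 1)) :
    (a = k ∧ b = 0) ∨ (a = 0 ∧ b = k + 1) := by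
  have h1 : k ∣ (k + 1) * a := by
    have h2 : k ∣ (k + 1) * a + k * b := by rw [h]; exact Dvd.intro _ rfl
    exact (Nat.dvd_add_left (Dvd.intro _ rfl)).1 h2
  have h3 : Nat.Coprime k (k + 1) := by simp
  obtain ⟨m, rfl⟩ := h3.dvd_of_dvd_mul_left h1
  rcases Nat.lt_or_ge m 2 with hm | hm
  · interval_cases m
    · right
      refine ⟨by simp, ?_⟩
      have : k * b = k * (k + 1) := by simpa using h
      exact Nat.eq_of_mul_eq_mul_left (by omega) this
    · left
      refine ⟨by simp, ?_⟩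
      have : k * b = 0 := by nlinarith
      rcases Nat.mul_eq_zero.1 this with h4 | h4
      · omega
      · exact h4
  · exfalso
    have : (k + 1) * (k * 2) ≤ (k + 1) * (k * m) :=
      Nat.mul_le_mul_left _ (Nat.mul_le_mul_left _ hm)
    nlinarith

/-- The linear system behind the fibre. -/
lemma system (K : ℕ) (x : Fin 8 → ℕ)
    (h : ∀ p q : Fin 6, hE p q = true →
      ∑ i, x i * (N i 3 p q + K * dl i p q) = ∑ i, U K i * (N i 3 p q + K * dl i p q)) :
    x = U K ∨ x = V K := by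
  obtain ⟨n1, n2, n3, n4, n5, n6, n7⟩ := N_table
  obtain ⟨d1, d2, d3, d4, d5, d6, d7⟩ := dl_table
  have e1 := h 0 4 (by decide)
  have e2 := h 4 2 (by decide)
  have e3 := h 4 5 (by decide)
  have e4 := h 2 3 (by decide)
  have e5 := h 3 2 (by decide)
  have e6 := h 5 1 (by decide)
  have e7 := h 1 5 (by decide)
  simp only [n1, d1, Fin.sum_univ_eight, U] at e1
  simp only [n2, d2, Fin.sum_univ_eight, U] at e2
  simp only [n3, d3, Fin.sum_univ_eight, U] at e3
  simp only [n4, d4, Fin.sum_univ_eight, U] at e4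
  simp only [n5, d5, Fin.sum_univ_eight, U] at e5
  simp only [n6, d6, Fin.sum_univ_eight, U] at e6
  simp only [n7, d7, Fin.sum_univ_eight, U] at e7
  simp at e1 e2 e3 e4 e5 e6 e7
  have m2 : (x 4 + x 6) * K = (2 * K + 3) * K := by rw [e2]
  have m2' : (x 4 + x 6) * 1 = (2 * K + 3) * 1 := by rw [e2]
  have m3 : (x 5 + x 7) * K = (2 * K + 3) * K := by rw [e3]
  have g4 : (K + 1 + 1) * x 0 + (K + 1) * x 1 = (K + 1) * (K + 1 + 1) := by linarith
  rcases lin_solve (K + 1) (x 0) (x 1) (by omega) g4 with ⟨a0, a1⟩ | ⟨a0, a1⟩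
  · left
    have a6 : x 6 = 0 := by rw [a0, a1] at e5; linarith
    have a4 : x 4 = 2 * K + 3 := by omega
    have a7 : x 7 = 2 * K + 3 := by omega
    have a5 : x 5 = 0 := by omega
    have g6 : (K + 1 + 1) * x 2 + (K + 1) * x 3 = (K + 1) * (K + 1 + 1) := by
      rw [a5, a7] at e6; linarith
    rcases lin_solve (K + 1) (x 2) (x 3) (by omega) g6 with ⟨a2, a3⟩ | ⟨a2, a3⟩
    · exfalso
      rw [a2, a3, a5, a7] at e7; linarith
    · funext i
      fin_cases i <;> simp [U, a0, a1, a2, a3, a4, a5, a6, a7]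
  · right
    have a6 : x 6 = 2 * K + 3 := by rw [a0, a1] at e5; linarith
    have a4 : x 4 = 0 := by omega
    have a7 : x 7 = 0 := by omega
    have a5 : x 5 = 2 * K + 3 := by omega
    have g6 : (K + 1 + 1) * x 2 + (K + 1) * x 3 = (K + 1) * (K + 1 + 1) := by
      rw [a5, a7] at e6; linarith
    rcases lin_solve (K + 1) (x 2) (x 3) (by omega) g6 with ⟨a2, a3⟩ | ⟨a2, a3⟩
    · funext i
      fin_cases i <;> simp [V, a0, a1, a2, a3, a4, a5, a6, a7]
    · exfalso
      rw [a2, a3, a5, a7] at e7; linarith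

/-- The two vectors have the same counts. -/
lemma UV_counts (K : ℕ) (p q : Fin 6) :
    ∑ i, U K i * (N i 3 p q + K * dl i p q) = ∑ i, V K i * (N i 3 p q + K * dl i p q) := by
  have hdec : ∀ p q : Fin 6,
      (∑ i, U 0 i * N i 3 p q = ∑ i, V 0 i * N i 3 p q) ∧
      (∑ i, (U 0 i * dl i p q + ![1, 0, 0, 1, 2, 0, 0, 2] i * N i 3 p q) =
        ∑ i, (V 0 i * dl i p q + ![0, 1, 1, 0, 0, 2, 2, 0] i * N i 3 p q)) ∧
      (∑ i : Fin 8, ![1, 0, 0, 1, 2, 0, 0, 2] i * dl i p q =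
        ∑ i : Fin 8, ![0, 1, 1, 0, 0, 2, 2, 0] i * dl i p q) := by
    decide
  have hU : ∀ i, U K i = U 0 i + K * ![1, 0, 0, 1, 2, 0, 0, 2] i := by
    intro i; fin_cases i <;> simp [U] <;> ring
  have hV : ∀ i, V K i = V 0 i + K * ![0, 1, 1, 0, 0, 2, 2, 0] i := by
    intro i; fin_cases i <;> simp [V] <;> ring
  obtain ⟨h1, h2, h3⟩ := hdec p q
  have eU : ∑ i, U K i * (N i 3 p q + K * dl i p q) =
      ∑ i, U 0 i * N i 3 p q +
      K * ∑ i, (U 0 i * dl i p q + ![1, 0, 0, 1, 2, 0, 0, 2] i * N i 3 p q) +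
      K * K * ∑ i : Fin 8, ![1, 0, 0, 1, 2, 0, 0, 2] i * dl i p q := by
    rw [Finset.mul_sum, Finset.mul_sum, ← Finset.sum_add_distrib, ← Finset.sum_add_distrib]
    refine Finset.sum_congr rfl (fun i _ => ?_)
    rw [hU]; ring
  have eV : ∑ i, V K i * (N i 3 p q + K * dl i p q) =
      ∑ i, V 0 i * N i 3 p q +
      K * ∑ i, (V 0 i * dl i p q + ![0, 1, 1, 0, 0, 2, 2, 0] i * N i 3 p q) +
      K * K * ∑ i : Fin 8, ![0, 1, 1, 0, 0, 2, 2, 0] i * dl i p q := by
    rw [Finset.mul_sum, Finset.mul_sum, ← Finset.sum_add_distrib, ← Finset.sum_add_distrib]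
    refine Finset.sum_congr rfl (fun i _ => ?_)
    rw [hV]; ring
  rw [eU, eV, h1, h2, h3]

/-- The two vectors have the same transition counts, at all pairs. -/
lemma counts_eq (K : ℕ) (e : Fin S × Fin S) :
    ∑ ω, lift hS (2 * K + 4) (U K) ω * transCount ω e =
      ∑ ω, lift hS (2 * K + 4) (V K) ω * transCount ω e := by
  have hT : 4 ≤ 2 * K + 4 := by omega
  rw [sum_lift hS hT _ (fun ω => transCount ω e), sum_lift hS hT _ (fun ω => transCount ω e)]
  by_cases he : ∃ p q : Fin 6, hE p q = true ∧ e = (c hS p, c hS q)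
  · obtain ⟨p, q, _, rfl⟩ := he
    have h1 : ∀ i, transCount (ew hS (2 * K + 4) i) (c hS p, c hS q) =
        N i 3 p q + K * dl i p q := by
      intro i
      rw [transCount_ew]
      exact N_eq i K p q
    simp only [h1]
    exact UV_counts K p q
  · push Not at he
    have h1 : ∀ i, transCount (ew hS (2 * K + 4) i) e = 0 := fun i =>
      transCount_ew_zero hS i e he
    simp [h1]

/-- **The fibre has exactly two elements.** -/
theorem fibre_two (K : ℕ) (w : Word S (2 * K + 4) → ℕ)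
    (hw : SameCounts w (lift hS (2 * K + 4) (U K))) :
    w = lift hS (2 * K + 4) (U K) ∨ w = lift hS (2 * K + 4) (V K) := by
  have hT : 4 ≤ 2 * K + 4 := by omega
  -- words outside the eight have multiplicity zero
  have hzero : ∀ ω, (∀ i, ω ≠ ew hS (2 * K + 4) i) → w ω = 0 := by
    intro ω hω
    by_contra hne
    have : ¬ (∀ (t : ℕ) (h : t + 1 < 2 * K + 4), ∃ p q : Fin 6, hE p q = true ∧
      ω.1 ⟨t, Nat.lt_of_succ_lt h⟩ = c hS p ∧ ω.1 ⟨t + 1, h⟩ = c hS q) := by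
      intro h
      obtain ⟨i, hi⟩ := word_classify hS hT ω h
      exact hω i hi
    push Not at this
    obtain ⟨t, ht, hbad⟩ := this
    set e : Fin S × Fin S := (ω.1 ⟨t, Nat.lt_of_succ_lt ht⟩, ω.1 ⟨t + 1, ht⟩) with he
    have hne' : e.1 ≠ e.2 := ω.2 t ht
    have h1 := hw e hne'
    rw [sum_lift hS hT _ (fun ω => transCount ω e)] at h1
    have h2 : ∀ i, transCount (ew hS (2 * K + 4) i) e = 0 := by
      intro i
      apply transCount_ew_zero hS i e
      intro p q hpq heq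
      have := hbad p q hpq (congrArg Prod.fst heq)
      exact this (congrArg Prod.snd heq)
    simp only [h2, mul_zero, Finset.sum_const_zero] at h1
    rw [Finset.sum_eq_zero_iff] at h1
    have h3 := h1 ω (Finset.mem_univ _)
    have h4 := transCount_pos ω t ht
    rcases Nat.mul_eq_zero.1 h3 with h5 | h5
    · exact hne h5
    · rw [h5] at h4; exact absurd h4 (lt_irrefl _)
  -- so `w` is the lift of its values at the eight words
  have hlift : w = lift hS (2 * K + 4) (fun i => w (ew hS (2 * K + 4) i)) := by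
    funext ω
    by_cases h : ∃ i, ω = ew hS (2 * K + 4) i
    · obtain ⟨i, rfl⟩ := h
      rw [lift_ew hS hT]
    · push Not at h
      rw [hzero ω h, lift_other hS _ ω h]
  have hsys : ∀ p q : Fin 6, hE p q = true →
      ∑ i, w (ew hS (2 * K + 4) i) * (N i 3 p q + K * dl i p q) =
        ∑ i, U K i * (N i 3 p q + K * dl i p q) := by
    intro p q hpq
    have hne : (c hS p : Fin S) ≠ c hS q := fun h => hE_ne hpq (c_inj hS h)
    have h1 := hw (c hS p, c hS q) hne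
    have h2 : ∀ i, transCount (ew hS (2 * K + 4) i) (c hS p, c hS q) =
        N i 3 p q + K * dl i p q := by
      intro i
      rw [transCount_ew]
      exact N_eq i K p q
    rw [hlift] at h1
    rw [sum_lift hS hT _ (fun ω => transCount ω (c hS p, c hS q)),
      sum_lift hS hT _ (fun ω => transCount ω (c hS p, c hS q))] at h1
    simpa only [h2] using h1
  rcases system K _ hsys with h | h
  · left; rw [hlift, h]
  · right; rw [hlift, h]

lemma sum_U (K : ℕ) : ∑ i, U K i = 3 * (2 * K + 3) := by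
  simp only [Fin.sum_univ_eight, U]
  simp
  ring

lemma sum_V (K : ℕ) : ∑ i, V K i = 3 * (2 * K + 3) := by
  simp only [Fin.sum_univ_eight, V]
  simp
  ring

lemma UV_disj (K : ℕ) (i : Fin 8) : U K i = 0 ∨ V K i = 0 := by
  fin_cases i <;> simp [U, V]

lemma lift_disj (K : ℕ) (ω : Word S (2 * K + 4)) :
    lift hS (2 * K + 4) (U K) ω = 0 ∨ lift hS (2 * K + 4) (V K) ω = 0 := by
  have hT : 4 ≤ 2 * K + 4 := by omega
  by_cases h : ∃ i, ω = ew hS (2 * K + 4) i
  · obtain ⟨i, rfl⟩ := h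
    rw [lift_ew hS hT, lift_ew hS hT]
    exact UV_disj K i
  · push Not at h
    left
    exact lift_other hS _ ω h

end fibre

end Pool.Agent.H609R3
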