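import Mathlib

/-!
# Toric homogeneous Markov chains without self-loops

Definitions (words, transition counts, moves, Markov bases) and the key fibre computation:
for `S ≥ 6` letters and words of even length `T = 2k+2`, one explicit fibre of the
transition-count matrix consists of exactly two elements, which have disjoint supports
and degree `3(T-1)`.
-/

namespace Pool.Agent.H609R3

open Finset

/-- Words of length `T` over the letters `Fin S` without self-loops. -/
def Word (S T : ℕ) : Type :=
  {w : Fin T → Fin S // ∀ (t : ℕ) (h : t + 1 < T),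
    w ⟨t, Nat.lt_of_succ_lt h⟩ ≠ w ⟨t + 1, h⟩}

noncomputable instance (S T : ℕ) : Fintype (Word S T) := by
  classical
  unfold Word
  infer_instance

noncomputable instance (S T : ℕ) : DecidableEq (Word S T) := Classical.decEq _

/-- The number of times `t` with `w t = i` and `w (t+1) = j`, for the pair `e = (i, j)`. -/
def transCount {S T : ℕ} (w : Word S T) (e : Fin S × Fin S) : ℕ :=
  (Finset.univ.filter (fun t : Fin (T - 1) =>
    w.1 ⟨t.1, by have := t.2; omega⟩ = e.1 ∧ w.1 ⟨t.1 + 1, by have := t.2; omega⟩ = e.2)).card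

/-- `x` and `y` have the same image under the design matrix: for every ordered pair
`e = (i, j)` of distinct letters, the total transition counts agree. -/
def SameCounts {S T : ℕ} (x y : Word S T → ℕ) : Prop :=
  ∀ e : Fin S × Fin S, e.1 ≠ e.2 →
    ∑ w, x w * transCount w e = ∑ w, y w * transCount w e

/-- Integer vectors in the kernel of the design matrix. -/
def IsMove {S T : ℕ} (z : Word S T → ℤ) : Prop :=
  ∀ e : Fin S × Fin S, e.1 ≠ e.2 → ∑ w, z w * (transCount w e : ℤ) = 0

/-- The degree of the binomial `p^{z⁺} - p^{z⁻}` of a move `z`: the sum of the positive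
entries of `z`. -/
noncomputable def moveDegree {S T : ℕ} (z : Word S T → ℤ) : ℕ := ∑ w, (z w).toNat

/-- A set of moves is a Markov basis if any two nonnegative integer vectors with the same
transition counts are joined by a path of nonnegative vectors whose steps are moves of the
set or their negatives. -/
def IsMarkovBasis (S T : ℕ) (B : Set (Word S T → ℤ)) : Prop :=
  (∀ z ∈ B, IsMove z) ∧
  ∀ x y : Word S T → ℕ, SameCounts x y →
    ∃ (K : ℕ) (p : ℕ → Word S T → ℕ), p 0 = x ∧ p K = y ∧
      ∀ l < K, ∃ z ∈ B, (∀ w, (p (l + 1) w : ℤ) = p l w + z w) ∨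
        (∀ w, (p (l + 1) w : ℤ) = p l w - z w)

/-! ### The eight words -/

/-- The seven transitions used. -/
def hE (p q : Fin 6) : Bool :=
  (p == 0 && q == 4) || (p == 4 && q == 2) || (p == 4 && q == 5) || (p == 2 && q == 3) ||
  (p == 3 && q == 2) || (p == 1 && q == 5) || (p == 5 && q == 1)

/-- The eight words, as functions of time, with letters in `Fin 6`. -/
def f (i : Fin 8) (n : ℕ) : Fin 6 :=
  match i with
  | 0 => if n % 2 = 0 then 2 else 3
  | 1 => if n % 2 = 0 then 3 else 2
  | 2 => if n % 2 = 0 then 5 else 1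
  | 3 => if n % 2 = 0 then 1 else 5
  | 4 => if n = 0 then 4 else if n % 2 = 0 then 3 else 2
  | 5 => if n = 0 then 4 else if n % 2 = 0 then 1 else 5
  | 6 => if n = 0 then 0 else if n = 1 then 4 else if n % 2 = 0 then 2 else 3
  | 7 => if n = 0 then 0 else if n = 1 then 4 else if n % 2 = 0 then 5 else 1

lemma f_add_two (i : Fin 8) (n : ℕ) : f i (n + 2 + 2) = f i (n + 2) := by
  have h : (n + 2 + 2) % 2 = (n + 2) % 2 := by omega
  fin_cases i <;> simp [f, h]

lemma f_even (i : Fin 8) (k : ℕ) : f i (2 * k + 2) = f i 2 := by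
  induction k with
  | zero => rfl
  | succ k ih =>
    have : 2 * (k + 1) + 2 = 2 * k + 2 + 2 := by ring
    rw [this, f_add_two, ih]

lemma f_odd (i : Fin 8) (k : ℕ) : f i (2 * k + 3) = f i 3 := by
  induction k with
  | zero => rfl
  | succ k ih =>
    have : 2 * (k + 1) + 3 = (2 * k + 1) + 2 + 2 := by ring
    rw [this, f_add_two]
    have : (2 * k + 1) + 2 = 2 * k + 3 := by ring
    rw [this, ih]

lemma f_step (i : Fin 8) (n : ℕ) : hE (f i n) (f i (n + 1)) = true := by
  rcases Nat.lt_or_ge n 2 with h | h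
  · have : n = 0 ∨ n = 1 := by omega
    rcases this with rfl | rfl <;> revert i <;> decide
  · obtain ⟨m, rfl | rfl⟩ : ∃ m, n = 2 * m + 2 ∨ n = 2 * m + 3 := by
      refine ⟨(n - 2) / 2, ?_⟩
      omega
    · have : 2 * m + 2 + 1 = 2 * m + 3 := by ring
      rw [this, f_even, f_odd]; revert i; decide
    · have : 2 * m + 3 + 1 = 2 * (m + 1) + 2 := by ring
      rw [this, f_odd, f_even]; revert i; decide

lemma hE_ne {p q : Fin 6} (h : hE p q = true) : p ≠ q := by
  revert p q; decide

/-- Transition counts of the eight words (letters in `Fin 6`). -/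
def N (i : Fin 8) (m : ℕ) (p q : Fin 6) : ℕ :=
  ((range m).filter (fun t => f i t = p ∧ f i (t + 1) = q)).card

/-- The increment of `N` over one period. -/
def dl (i : Fin 8) (p q : Fin 6) : ℕ :=
  (if f i 3 = p ∧ f i 2 = q then 1 else 0) + (if f i 2 = p ∧ f i 3 = q then 1 else 0)

lemma N_succ (i : Fin 8) (m : ℕ) (p q : Fin 6) :
    N i (m + 1) p q = N i m p q + (if f i m = p ∧ f i (m + 1) = q then 1 else 0) := by
  unfold N
  rw [Finset.range_add_one, Finset.filter_insert]
  split_ifs with h
  · rw [Finset.card_insert_of_notMem (by simp)]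
  · simp

lemma N_eq (i : Fin 8) (K : ℕ) (p q : Fin 6) :
    N i (2 * K + 3) p q = N i 3 p q + K * dl i p q := by
  induction K with
  | zero => simp
  | succ K ih =>
    have e1 : 2 * (K + 1) + 3 = (2 * K + 3) + 1 + 1 := by ring
    rw [e1, N_succ, N_succ, ih]
    have e2 : 2 * K + 3 + 1 = 2 * (K + 1) + 2 := by ring
    have e3 : 2 * K + 3 + 1 + 1 = 2 * (K + 1) + 3 := by ring
    rw [e3, e2, f_odd, f_even, f_odd]
    unfold dl
    ring


/-! ### The eight words over `Fin S` -/

section words

variable {S : ℕ} (hS : 6 ≤ S)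

/-- The six letters inside `Fin S`. -/
def c (p : Fin 6) : Fin S := Fin.castLE hS p

lemma c_inj : Function.Injective (c hS) := Fin.castLE_injective hS

/-- The eight words over `Fin S`, of length `T`. -/
def ew (T : ℕ) (i : Fin 8) : Word S T :=
  ⟨fun t => c hS (f i t.1), fun t _ h => hE_ne (f_step i t) (c_inj hS h)⟩

lemma transCount_eq_card {T : ℕ} (w : Word S T) (g : ℕ → Fin S)
    (hg : ∀ (t : ℕ) (h : t < T), w.1 ⟨t, h⟩ = g t) (e : Fin S × Fin S) :
    transCount w e =
      ((range (T - 1)).filter (fun t => g t = e.1 ∧ g (t + 1) = e.2)).card := by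
  unfold transCount
  rw [Finset.card_filter, Finset.card_filter]
  rw [← Fin.sum_univ_eq_sum_range (fun t => if g t = e.1 ∧ g (t + 1) = e.2 then 1 else 0)]
  refine Finset.sum_congr rfl (fun t _ => ?_)
  rw [hg, hg]

lemma transCount_ew {T : ℕ} (i : Fin 8) (p q : Fin 6) :
    transCount (ew hS T i) (c hS p, c hS q) = N i (T - 1) p q := by
  rw [transCount_eq_card (ew hS T i) (fun n => c hS (f i n)) (fun t h => rfl)]
  unfold N
  congr 1
  ext t
  simp [(c_inj hS).eq_iff]

lemma transCount_ew_zero {T : ℕ} (i : Fin 8) (e : Fin S × Fin S)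
    (he : ∀ p q : Fin 6, hE p q = true → e ≠ (c hS p, c hS q)) :
    transCount (ew hS T i) e = 0 := by
  rw [transCount_eq_card (ew hS T i) (fun n => c hS (f i n)) (fun t h => rfl)]
  rw [Finset.card_eq_zero, Finset.filter_eq_empty_iff]
  intro t _ h
  exact he _ _ (f_step i t) (Prod.ext h.1.symm h.2.symm)

lemma transCount_pos {T : ℕ} (w : Word S T) (t : ℕ) (h : t + 1 < T) :
    0 < transCount w (w.1 ⟨t, Nat.lt_of_succ_lt h⟩, w.1 ⟨t + 1, h⟩) := by
  unfold transCount
  rw [Finset.card_pos]
  refine ⟨⟨t, by omega⟩, ?_⟩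
  simp

/-- the deterministic continuation -/
lemma next_unique {a b : Fin 6} (h : hE a b = true) (ha : a ≠ 4) :
    b = (if a = 0 then 4 else if a = 2 then 3 else if a = 3 then 2 else if a = 1 then 5
      else 1) := by
  revert a b; decide

lemma next_four {b : Fin 6} (h : hE 4 b = true) : b = 2 ∨ b = 5 := by
  revert b; decide

/-- Classification of sequences all of whose transitions are among the seven. -/
lemma classify (T : ℕ) (hT : 4 ≤ T) (g : ℕ → Fin 6)
    (hg : ∀ t, t + 1 < T → hE (g t) (g (t + 1)) = true) :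
    ∃ i : Fin 8, ∀ t, t < T → g t = f i t := by
  have key : ∀ i : Fin 8, ∀ s, s < T → (∀ t, t ≤ s → g t = f i t) →
      (∀ t, s ≤ t → f i t ≠ 4) → ∀ t, t < T → g t = f i t := by
    intro i s hs h0 h4 t
    induction t with
    | zero => intro _; exact h0 0 (Nat.zero_le _)
    | succ t ih =>
      intro ht
      rcases Nat.lt_or_ge t s with h | h
      · exact h0 _ h
      · have h1 := ih (by omega)
        have h2 := hg t ht
        rw [h1] at h2
        have h3 := next_unique h2 (h4 t h)
        have h5 := next_unique (f_step i t) (h4 t h)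
        rw [h3, h5]
  have n4 : ∀ i : Fin 8, ∀ t, 2 ≤ t → f i t ≠ 4 := by
    intro i t ht
    obtain ⟨m, rfl | rfl⟩ : ∃ m, t = 2 * m + 2 ∨ t = 2 * m + 3 := ⟨(t - 2) / 2, by omega⟩
    · rw [f_even]; revert i; decide
    · rw [f_odd]; revert i; decide
  have h01 := hg 0 (by omega)
  have h12 := hg 1 (by omega)
  have fin : ∀ i : Fin 8, g 0 = f i 0 → g 1 = f i 1 → g 2 = f i 2 →
      ∃ i : Fin 8, ∀ t, t < T → g t = f i t := by
    intro i a0 a1 a2
    refine ⟨i, key i 2 (by omega) ?_ (n4 i)⟩
    intro t ht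
    have : t = 0 ∨ t = 1 ∨ t = 2 := by omega
    rcases this with rfl | rfl | rfl <;> assumption
  have all : ∀ a0 a1 a2 : Fin 6, hE a0 a1 = true → hE a1 a2 = true →
      ∃ i : Fin 8, a0 = f i 0 ∧ a1 = f i 1 ∧ a2 = f i 2 := by decide
  obtain ⟨i, b0, b1, b2⟩ := all _ _ _ h01 h12
  exact fin i b0 b1 b2

/-- A word all of whose transitions are among the seven is one of the eight words. -/
lemma word_classify {T : ℕ} (hT : 4 ≤ T) (w : Word S T)
    (hw : ∀ (t : ℕ) (h : t + 1 < T), ∃ p q : Fin 6, hE p q = true ∧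
      w.1 ⟨t, Nat.lt_of_succ_lt h⟩ = c hS p ∧ w.1 ⟨t + 1, h⟩ = c hS q) :
    ∃ i, w = ew hS T i := by
  have h1 : ∀ (t : ℕ), ∃ p : Fin 6, ∀ h : t < T, w.1 ⟨t, h⟩ = c hS p := by
    intro t
    by_cases h : t < T
    · by_cases h' : t + 1 < T
      · obtain ⟨p, q, _, hp, _⟩ := hw t h'
        exact ⟨p, fun _ => hp⟩
      · have h2 : (t - 1) + 1 < T := by omega
        obtain ⟨p, q, _, _, hq⟩ := hw (t - 1) h2
        refine ⟨q, fun _ => ?_⟩
        have : t - 1 + 1 = t := by omega
        simpa [this] using hq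
    · exact ⟨0, fun h' => absurd h' h⟩
  choose g hg using h1
  have h2 : ∀ t, t + 1 < T → hE (g t) (g (t + 1)) = true := by
    intro t ht
    obtain ⟨p, q, hpq, hp, hq⟩ := hw t ht
    rw [hg t (by omega)] at hp
    rw [hg (t + 1) ht] at hq
    rw [c_inj hS hp, c_inj hS hq]
    exact hpq
  obtain ⟨i, hi⟩ := classify T hT g h2
  refine ⟨i, ?_⟩
  apply Subtype.ext
  funext t
  rw [hg t.1 t.2, hi t.1 t.2]
  rfl

lemma ew_inj {T : ℕ} (hT : 4 ≤ T) : Function.Injective (ew hS T) := by
  intro i j h
  have h' : ∀ t, t < T → f i t = f j t := by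
    intro t ht
    have := congrArg (fun w : Word S T => w.1 ⟨t, ht⟩) h
    exact c_inj hS this
  have h0 := h' 0 (by omega)
  have h1 := h' 1 (by omega)
  have h2 := h' 2 (by omega)
  revert i j
  have : ∀ i j : Fin 8, f i 0 = f j 0 → f i 1 = f j 1 → f i 2 = f j 2 → i = j := by decide
  intro i j _ _ h0 h1 h2
  exact this i j h0 h1 h2

end words

end Pool.Agent.H609R3
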